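import Pool.Agent.H24.OrdB2

set_option autoImplicit false

namespace Pool.Agent.Results.MP_5127fd_an.Q1True

open Pool.Agent.H24.OrdB

theorem result (X : Type) [NormedAddCommGroup X] [NormedSpace ℝ X] [CompleteSpace X] (K : Set X)
    (hK : IsCone K) (hS : PropS K) : Normal K := normal_of hK hS

end Pool.Agent.Results.MP_5127fd_an.Q1True
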