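import Pool.Agent.H24.OrdB2

set_option autoImplicit false

namespace Pool.Agent.Results.MP_5127fd_an.Q2True

open Pool.Agent.H24.OrdB Filter Topology

theorem result (X : Type) [NormedAddCommGroup X] [NormedSpace ℝ X] [CompleteSpace X]
    [TopologicalSpace.SeparableSpace X] (K : Set X) (hK : IsCone K) (hS : PropS K) (x : ℕ → X)
    (hx : ∀ n, Le K (x n) (x (n + 1))) (hb : ∃ a b, ∀ n, Le K a (x n) ∧ Le K (x n) b) :
    ∃ s, Tendsto x atTop (𝓝 s) := by
  obtain ⟨_, b, h⟩ := hb
  exact conv_of hK hS x hx b fun n => (h n).2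

end Pool.Agent.Results.MP_5127fd_an.Q2True
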